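import Pool.Agent.Lib.MP_1a91b9_nuE.Dt

/-!
# Torsion points of the forms of the curve

`W` is a curve over `Z` which becomes isomorphic to `E` over `N`; a torsion point `P` of `E` over `N`
gives a point of `W` over `Z` if its coordinates in the model `W` lie in `Z`.
-/

set_option autoImplicit false
set_option linter.unusedSectionVars false

namespace Pool.Agent.Lib.MP_1a91b9_nuY.BE

variable [Pool.Agent.Lib.MP_1a91b9_nuT.CD]

open NumberField IsDedekindDomain WeierstrassCurve Pool.Agent.Lib.MP_1a91b9_nuT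
open Pool.Agent.Lib.MP_1a91b9_nuX
open Pool.Agent.Lib.MP_1a91b9_nuX.DB Pool.Agent.Lib.MP_1a91b9_nuX.GL
open Pool.Agent.Lib.MP_1a91b9_nuX.PG (Gd FrV Trp trp_exists cxy_ext)
open Pool.Agent.Lib.MP_1a91b9_nuX.PH (Hv Fm hv_frv)
open Pool.Agent.Lib.MP_1a91b9_nuE (gd_of_tors)

noncomputable section

private theorem tw_px {F : Type*} [Field F] [Algebra K F] (P : (EF F).toAffine.Point) :
    GM.px P = xc (F := F) P := by
  rcases P with _ | ⟨x, y, h⟩
  · rfl
  · rfl

private theorem tw_py {F : Type*} [Field F] [Algebra K F] (P : (EF F).toAffine.Point) :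
    GM.py P = yc (F := F) P := by
  rcases P with _ | ⟨x, y, h⟩
  · rfl
  · rfl

private theorem tw_alg {F : Type*} [Field F] {u r s t x y X Y : F} (hu : u ≠ 0)
    (h1 : x = u ^ 2 * X + r) (h2 : y = u ^ 3 * Y + u ^ 2 * s * X + t) :
    X = (x - r) / u ^ 2 ∧ Y = (y - s * (x - r) - t) / u ^ 3 := by
  rw [eq_div_iff (pow_ne_zero 2 hu), eq_div_iff (pow_ne_zero 3 hu), h1, h2]
  constructor <;> ring

private theorem tw_e {F : Type*} [Field F] [Algebra K F] [DecidableEq F] (C : VariableChange F) :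
    ∃ e : Pt F ≃+ (C • EF F).toAffine.Point, ∀ P : Pt F, P ≠ 0 →
      GM.px (e P) = cx C P ∧ GM.py (e P) = cy C P := by
  obtain ⟨e, he⟩ := GM.exists_chg (EF F) C
  refine ⟨e, fun P hP => ?_⟩
  obtain ⟨h1, h2⟩ := he P hP
  rw [tw_px P] at h1
  rw [tw_py P] at h2
  exact tw_alg C.u.ne_zero h1 h2

private theorem tw_transfer {F : Type*} [Field F] [DecidableEq F] {W₁ W₂ : WeierstrassCurve F}
    (h : W₁ = W₂) : ∃ e : W₁.toAffine.Point ≃+ W₂.toAffine.Point,
      ∀ P, GM.px (e P) = GM.px P ∧ GM.py (e P) = GM.py P := by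
  subst h
  exact ⟨AddEquiv.refl _, fun _ => ⟨rfl, rfl⟩⟩

/-- a point of the form `W` over the smaller field -/
theorem exists_ptZ {Z N : Type} [Field Z] [Field N] [Algebra K N] [Algebra Z N] [DecidableEq Z]
    [DecidableEq N] {W : WeierstrassCurve Z} {C : VariableChange N}
    (hC : C • EF N = W.map (algebraMap Z N)) {P : Pt N} (hP : P ≠ 0) {z₁ z₂ : Z}
    (h1 : algebraMap Z N z₁ = cx C P) (h2 : algebraMap Z N z₂ = cy C P) {m : ℕ} (hm : m • P = 0) :
    ∃ Q : W.toAffine.Point, Q ≠ 0 ∧ m • Q = 0 := by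
  obtain ⟨e, he⟩ := tw_e C
  obtain ⟨t, ht⟩ := tw_transfer hC
  obtain ⟨φ, hφ, hx, hy⟩ := GM.exists_map W N
  obtain ⟨R, hR⟩ : ∃ R, R = t (e P) := ⟨_, rfl⟩
  have hR0 : R ≠ 0 := by
    intro h0
    apply hP
    apply e.injective
    apply t.injective
    rw [← hR, h0, map_zero, map_zero]
  have hmR : m • R = 0 := by
    rw [hR, ← map_nsmul, ← map_nsmul, hm, map_zero, map_zero]
  have hxR : GM.px R = algebraMap Z N z₁ := by rw [hR, (ht _).1, (he P hP).1, h1]
  have hyR : GM.py R = algebraMap Z N z₂ := by rw [hR, (ht _).2, (he P hP).2, h2]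
  have key : ∃ Q : W.toAffine.Point, φ Q = R := by
    rcases R with _ | ⟨x, y, h⟩
    · exact absurd rfl hR0
    · have ex : x = algebraMap Z N z₁ := hxR
      have ey : y = algebraMap Z N z₂ := hyR
      subst ex
      subst ey
      have hns : W.toAffine.Nonsingular z₁ z₂ :=
        (Affine.map_nonsingular W.toAffine (algebraMap Z N).injective z₁ z₂).1 h
      refine ⟨Affine.Point.some z₁ z₂ hns, ?_⟩
      have hQ0 : φ (Affine.Point.some z₁ z₂ hns) ≠ 0 := by
        intro h0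
        have h3 : (Affine.Point.some z₁ z₂ hns : W.toAffine.Point) = 0 :=
          hφ (by rw [h0, map_zero])
        exact Affine.Point.some_ne_zero hns h3
      have hx' := hx (Affine.Point.some z₁ z₂ hns)
      have hy' := hy (Affine.Point.some z₁ z₂ hns)
      revert hQ0 hx' hy'
      generalize φ (Affine.Point.some z₁ z₂ hns) = S
      intro hQ0 hx' hy'
      rcases S with _ | ⟨x', y', h'⟩
      · exact absurd rfl hQ0
      · have ex : x' = algebraMap Z N z₁ := hx'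
        have ey : y' = algebraMap Z N z₂ := hy'
        subst ex
        subst ey
        rfl
  obtain ⟨Q, hQ⟩ := key
  refine ⟨Q, fun h0 => hR0 (by rw [← hQ, h0, map_zero]), hφ ?_⟩
  rw [map_nsmul, hQ, hmR, map_zero]

section
variable {Z N : Type} [Field Z] [NumberField Z] [Algebra K Z] [Field N] [NumberField N]
  [Algebra K N] [Algebra Z N] [IsScalarTower K Z N] {W : WeierstrassCurve Z}
  {C : VariableChange N} (hC : C • EF N = W.map (algebraMap Z N))
include hC

theorem tw_disc : algebraMap Z N W.Δ = ((C.u⁻¹ : Nˣ) : N) ^ 12 * (E N).Δ := by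
  have hC' : C • E N = W.map (algebraMap Z N) := by rw [← EF_eq, hC]
  have h1 := congrArg WeierstrassCurve.Δ hC'
  rw [WeierstrassCurve.variableChange_Δ, WeierstrassCurve.map_Δ] at h1
  exact h1.symm

theorem tw_c4 : algebraMap Z N W.c₄ = ((C.u⁻¹ : Nˣ) : N) ^ 4 * (E N).c₄ := by
  have hC' : C • E N = W.map (algebraMap Z N) := by rw [← EF_eq, hC]
  have h1 := congrArg WeierstrassCurve.c₄ hC'
  rw [WeierstrassCurve.variableChange_c₄, WeierstrassCurve.map_c₄] at h1
  exact h1.symm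

theorem tw_ne : W.Δ ≠ 0 := by
  intro h0
  have h1 := tw_disc hC
  rw [h0, map_zero] at h1
  exact mul_ne_zero (pow_ne_zero _ (C.u⁻¹).ne_zero) LF.E_Δ_ne h1.symm

/-- **Good reduction of the form** at the places prime to `ℓ` if a point of order `ℓ` is rational over
`Z`. -/
theorem gd_ptZ [DecidableEq N] (v : HeightOneSpectrum (𝓞 N)) {ℓ : ℕ} (hℓ : ℓ.Prime) (h5 : 5 ≤ ℓ)
    (hv : v.valuation N (ℓ : N) = 1) {P : Pt N} (hP : P ≠ 0) (hlP : ℓ • P = 0) {z₁ z₂ : Z}
    (h1 : algebraMap Z N z₁ = cx C P) (h2 : algebraMap Z N z₂ = cy C P) :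
    Gd W (v.under (𝓞 Z)) := by
  classical
  obtain ⟨Q, hQ, hlQ⟩ := exists_ptZ hC hP h1 h2 hlP
  refine gd_of_tors (tw_ne hC) _ ?_ hℓ h5 ?_ hQ hlQ
  · have hd0 : (v.under (𝓞 Z)).valuation Z W.Δ ≠ 0 := (Valuation.ne_zero_iff _).2 (tw_ne hC)
    have h3 : (v.under (𝓞 Z)).valuation Z (W.c₄ ^ 3 / W.Δ) ≤ 1 := by
      rw [← val_map_le, map_div₀, map_pow, tw_disc hC, tw_c4 hC, mul_pow, ← pow_mul]
      have hu : ((C.u⁻¹ : Nˣ) : N) ^ 12 ≠ 0 := pow_ne_zero _ (C.u⁻¹).ne_zero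
      have e : ((C.u⁻¹ : Nˣ) : N) ^ (4 * 3) * (E N).c₄ ^ 3 /
          (((C.u⁻¹ : Nˣ) : N) ^ 12 * (E N).Δ) = (E N).c₄ ^ 3 / (E N).Δ :=
        mul_div_mul_left _ _ hu
      rw [e, map_div₀]
      exact div_le_one_of_le₀ (LF.c4_le v) zero_le
    rw [map_div₀] at h3
    exact (div_le_one₀ (zero_lt_iff.2 hd0)).1 h3
  · refine le_antisymm ?_ (not_lt.1 fun h3 => ?_)
    · exact v_nat_le _ ℓ
    · rw [← val_map_lt, map_natCast, hv] at h3
      exact lt_irrefl _ h3

theorem tw_fm : Fm W := by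
  obtain ⟨ι⟩ := PH.exists_emb N
  refine ⟨ι.comp (IsScalarTower.toAlgHom K Z N), C.map (ι : N →+* Kb), ?_⟩
  have h1 : C.map (ι : N →+* Kb) • (EF N).map (ι : N →+* Kb) =
      (C • EF N).map (ι : N →+* Kb) := WeierstrassCurve.map_variableChange _ _ _
  have h2 : (EF N).map (ι : N →+* Kb) = EF Kb := by
    rw [WeierstrassCurve.map_map]
    congr 1
    exact ι.comp_algebraMap
  rw [h2, hC, WeierstrassCurve.map_map] at h1
  exact h1

/-- the value of the Hecke character of the form is congruent to `1` modulo the annihilator of a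
torsion point which is rational for the form -/
theorem hv_torsZ (hE : EllK) [DecidableEq N] {w : HeightOneSpectrum (𝓞 Z)} (hg : Gd W w)
    {ϖ : 𝓞 K} {P : Pt N} (hP : Ord ϖ P) (hw : w.valuation Z (algebraMap K Z (ϖ : K)) = 1)
    {z₁ z₂ : Z} (h1 : algebraMap Z N z₁ = cx C P) (h2 : algebraMap Z N z₂ = cy C P) :
    ϖ ∣ Hv W w - 1 := by
  classical
  rcases eq_or_ne P 0 with h0 | h0
  · have h1 : ϖ ∣ 1 := (hP 1).1 (by rw [h0, map_zero])
    exact h1.trans (one_dvd _)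
  obtain ⟨ι⟩ := PH.exists_emb N
  obtain ⟨D, hD0⟩ : ∃ D, D = C.map (ι : N →+* Kb) := ⟨_, rfl⟩
  let iA : Algebra Z Kb := ((ι.comp (IsScalarTower.toAlgHom K Z N)) : Z →+* Kb).toAlgebra
  have iT : IsScalarTower K Z Kb := IsScalarTower.of_algebraMap_eq fun x =>
    ((ι.comp (IsScalarTower.toAlgHom K Z N)).commutes x).symm
  have hD : D • EF Kb = W.map (algebraMap Z Kb) := by
    have h1 : C.map (ι : N →+* Kb) • (EF N).map (ι : N →+* Kb) =
        (C • EF N).map (ι : N →+* Kb) := WeierstrassCurve.map_variableChange _ _ _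
    have h2 : (EF N).map (ι : N →+* Kb) = EF Kb := by
      rw [WeierstrassCurve.map_map]
      congr 1
      exact ι.comp_algebraMap
    rw [h2, hC, WeierstrassCurve.map_map] at h1
    rw [hD0]
    exact h1
  have hF : Algebra.IsAlgebraic Z Kb := Algebra.IsAlgebraic.tower_top (K := K) Z
  have hfr : FrV D w (Hv W w) := hv_frv hE (tw_fm hC) hg hD
  obtain ⟨V, hV⟩ := exists_abv (Ω := Kb) w
  obtain ⟨σ, hσ⟩ := exists_fr (Ω := Kb) hV
  obtain ⟨φ, hφ⟩ := trp_exists hD σ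
  obtain ⟨T, hT⟩ : ∃ T, T = pm ι P := ⟨_, rfl⟩
  have hT0 : T ≠ 0 := by
    intro h
    apply h0
    apply pm_inj ι
    rw [← hT, h, map_zero]
  have hTa : Ta V.valuation T := by
    refine ⟨ϖ, ?_, ?_⟩
    · have h1 := (abv_eq hV (algebraMap K Z (ϖ : K))).2 hw
      rwa [← IsScalarTower.algebraMap_apply K Z Kb] at h1
    · rw [hT, ← pm_sm, (hP ϖ).2 dvd_rfl, map_zero]
  have h3 := hfr V hV σ hσ φ hφ T hTa
  obtain ⟨h4, h5, h6⟩ := hφ T hT0
  have hu : ((D.u : Kbˣ) : Kb) = ι (C.u : N) := by rw [hD0]; rfl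
  have hr : D.r = ι C.r := by rw [hD0]; rfl
  have hs : D.s = ι C.s := by rw [hD0]; rfl
  have ht : D.t = ι C.t := by rw [hD0]; rfl
  have ex : cx D T = algebraMap Z Kb z₁ := by
    have e1 : algebraMap Z Kb z₁ = ι (algebraMap Z N z₁) := rfl
    rw [e1, h1, cx, cx, hu, hr, hT, xc_pm, map_div₀, map_sub, map_pow]
  have ey : cy D T = algebraMap Z Kb z₂ := by
    have e1 : algebraMap Z Kb z₂ = ι (algebraMap Z N z₂) := rfl
    rw [e1, h2, cy, cy, hu, hr, hs, ht, hT, xc_pm, yc_pm, map_div₀, map_sub, map_sub, map_mul,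
      map_sub, map_pow]
  have h7 : φ T = T := by
    refine cxy_ext (D := D) h4 hT0 ?_ ?_
    · rw [h5, ex, σ.commutes]
    · rw [h6, ey, σ.commutes]
  rw [h7, hT, ← pm_sm] at h3
  have h8 := pm_inj ι h3
  have h9 : sm N 1 P = sm N (Hv W w) P := by
    rw [← h8, map_one]
    rfl
  have h10 := (hP.sm_eq_iff _ _).1 h9
  rwa [← dvd_neg, neg_sub] at h10

end

end

end Pool.Agent.Lib.MP_1a91b9_nuY.BE
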