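import Pool.Agent.Lib.MP_1a91b9_nuY.BE.Dec
import Pool.Agent.Lib.MP_1a91b9_nuY.BE.Tw
import Pool.Agent.Lib.MP_1a91b9_nuY.TX.Fr
import Pool.Agent.Lib.MP_1a91b9_nuY.TS.Dt
import Pool.Agent.Lib.MP_1a91b9_nuX.HU.Unit
import Pool.Agent.Lib.MP_1a91b9_nuX.TH.Sc
import Pool.Agent.Lib.MP_1a91b9_nuX.GM.Desc

/-!
# The decomposition groups at the places above `g`: an explicit condition

If the decomposition group of `v` in `N / F` fixes `P` for the twisted action, the point of the form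
`cv a b` which corresponds to `P` is rational over the decomposition field.
-/

set_option autoImplicit false
set_option linter.unusedSectionVars false

namespace Pool.Agent.Lib.MP_1a91b9_nuY.BE

variable [Pool.Agent.Lib.MP_1a91b9_nuT.CD]

open NumberField IsDedekindDomain WeierstrassCurve Pool.Agent.Lib.MP_1a91b9_nuT
open Pool.Agent.Lib.MP_1a91b9_nuX Pool.Agent.Lib.MP_1a91b9_nuX.DB
open Pool.Agent.Lib.MP_1a91b9_nuX.DX (rs toF rs_apply rs_mul rs_toF toF_apply)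
open Pool.Agent.Lib.MP_1a91b9_nuG (up)
open Pool.Agent.Lib.MP_1a91b9_nuX.GL (EllK EF EF_eq cx cy xc_gk yc_gk)
open Pool.Agent.Lib.MP_1a91b9_nuX.PG (Gd)
open Pool.Agent.Lib.MP_1a91b9_nuX.PH (Hv Fm)
open Pool.Agent.Lib.MP_1a91b9_nuX.QW (ScD)
open Pool.Agent.Lib.MP_1a91b9_nuT.Per (cv)
open Pool.Agent.Lib.MP_1a91b9_nuY.TS Pool.Agent.Lib.MP_1a91b9_nuY.TX
open Pool.Agent.Lib.MP_1a91b9_nuY

noncomputable section

private theorem dt_inert {F N : Type} [Field F] [NumberField F] [Field N] [NumberField N]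
    [Algebra F N] {v : HeightOneSpectrum (𝓞 N)} {σ : Gal(N/F)}
    (hσ : ∀ y : 𝓞 N, σ • y - y ∈ v.asIdeal) : gpl σ v = v := by
  apply HeightOneSpectrum.ext
  ext y
  have h1 : y ∈ (gpl σ v).asIdeal ↔ σ⁻¹ • y ∈ v.asIdeal := Iff.rfl
  rw [h1]
  have h2 := hσ (σ⁻¹ • y)
  rw [smul_inv_smul] at h2
  constructor
  · intro h3
    have h4 := v.asIdeal.add_mem h2 h3
    rwa [sub_add_cancel] at h4
  · intro h3
    have h4 := v.asIdeal.sub_mem h3 h2
    rwa [sub_sub_cancel] at h4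

/-- good reduction goes down from the decomposition field -/
theorem gd_dec {F Z N : Type} [Field F] [NumberField F] [Field Z] [NumberField Z] [Field N]
    [NumberField N] [Algebra F Z] [Algebra Z N] [Algebra F N] [IsScalarTower F Z N] [IsGalois F N]
    {v : HeightOneSpectrum (𝓞 N)}
    (hZ : ∀ (s : Gal(N/F)) (z : Z), gpl s v = v → s (algebraMap Z N z) = algebraMap Z N z)
    {W : WeierstrassCurve F} (hg : Gd (W.map (algebraMap F Z)) (v.under (𝓞 Z))) :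
    Gd W (v.under (𝓞 F)) := by
  classical
  obtain ⟨C₁, hC⟩ := hg
  have h1 := GM.good_map (F' := N) (v' := v.valuation N) (fun x => val_map_le v x) hC
  rw [← WeierstrassCurve.map_variableChange, WeierstrassCurve.map_map,
    ← IsScalarTower.algebraMap_eq] at h1
  have hu : algebraMap Z N (C₁.u : Z) ≠ 0 := (map_ne_zero _).2 C₁.u.ne_zero
  refine GM.desc_good (k := F) (M := N) (W := W) (w := v) (u := algebraMap Z N (C₁.u : Z))
    (r := algebraMap Z N C₁.r) (s := algebraMap Z N C₁.s) (t := algebraMap Z N C₁.t) hu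
    (fun σ hσ => ?_) ?_
  · have h2 := dt_inert hσ
    exact ⟨hZ σ _ h2, hZ σ _ h2, hZ σ _ h2, hZ σ _ h2⟩
  · have e : (⟨Units.mk0 (algebraMap Z N (C₁.u : Z)) hu, algebraMap Z N C₁.r,
        algebraMap Z N C₁.s, algebraMap Z N C₁.t⟩ : VariableChange N) =
        C₁.map (algebraMap Z N) := by
      ext <;> rfl
    rw [e]
    exact h1

/-- **The decomposition groups at the places above `g`** do not fix `P` for the twisted action if the
places of good reduction above `g` are not anomalous. -/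
theorem dtk_expl (hE : EllK) {F G : Type} [Field F] [NumberField F] [Algebra K F]
    [Field G] [NumberField G] [Algebra K G] [Algebra F G] [IsScalarTower K F G] [IsGalois F G]
    {a b : F} {u : G} {θ : Gal(G/F) →* (𝓞 K)ˣ} (hs : ScD a b u θ) {g ϖ : 𝓞 K} {ℓ q : ℕ}
    (h : PD ϖ ℓ q) (hgl : IsCoprime g (ℓ : 𝓞 K))
    (hc : ∀ v : HeightOneSpectrum (𝓞 F), up g F ∈ v.asIdeal → Gd (cv a b) v →
      ¬ ϖ ∣ Hv (cv a b) v - 1) : DTK F G (kth θ) g ϖ := by
  intro N _ _ _ _ _ _ _ _ _ _ P hF v hv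
  by_contra hcon
  push Not at hcon
  have hfix : ∀ s : Gal(N/F), gpl s v = v → gk G (kth θ) s P = P := by
    intro s h1
    by_contra h2
    exact hcon s h2 h1
  -- the places
  have hgF : up g F ∈ (v.under (𝓞 F)).asIdeal := by
    have h1 : (v.under (𝓞 F)).valuation F (algebraMap K F (g : K)) < 1 := by
      rw [← val_map_lt, ← IsScalarTower.algebraMap_apply K F N]
      exact hv
    have h2 : algebraMap K F (g : K) = algebraMap (𝓞 F) F (up g F) := rfl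
    rw [h2] at h1
    exact ((v.under (𝓞 F)).valuation_lt_one_iff_mem _).1 h1
  have hgN : up g N ∈ v.asIdeal := by
    have h2 : algebraMap K N (g : K) = algebraMap (𝓞 N) N (up g N) := rfl
    rw [h2] at hv
    exact (v.valuation_lt_one_iff_mem _).1 hv
  have hlN : ((ℓ : ℕ) : 𝓞 N) ∉ v.asIdeal := by
    intro h1
    obtain ⟨x, y, hxy⟩ := hgl.map (algebraMap (𝓞 K) (𝓞 N))
    apply v.isPrime.ne_top
    rw [Ideal.eq_top_iff_one, ← hxy, map_natCast]
    exact v.asIdeal.add_mem (v.asIdeal.mul_mem_left x hgN) (v.asIdeal.mul_mem_left y h1)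
  have hvl : v.valuation N (ℓ : N) = 1 := by
    refine le_antisymm (v_nat_le _ ℓ) (not_lt.1 fun h2 => hlN ?_)
    have e : (ℓ : N) = algebraMap (𝓞 N) N ((ℓ : ℕ) : 𝓞 N) := (map_natCast _ _).symm
    rw [e] at h2
    exact (v.valuation_lt_one_iff_mem _).1 h2
  have hvϖ : v.valuation N (algebraMap K N (ϖ : K)) = 1 := by
    obtain ⟨c, hc'⟩ := h.dvd
    refine le_antisymm (v_alg_le _ _) (not_lt.1 fun h2 => ?_)
    have e : (ℓ : N) = algebraMap K N (ϖ : K) * algebraMap K N (c : K) := by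
      rw [← map_mul]
      have e1 : ((ϖ * c : 𝓞 K) : K) = (ϖ : K) * (c : K) := map_mul _ _ _
      rw [← e1, ← hc']
      have e2 : (((ℓ : ℕ) : 𝓞 K) : K) = (ℓ : K) := map_natCast _ _
      rw [e2, map_natCast]
    rw [e, map_mul] at hvl
    exact absurd hvl (mul_lt_one_of_lt_of_le h2 (v_alg_le _ c)).ne
  have hP0 : P ≠ 0 := by
    rintro rfl
    exact h.prime.not_isUnit (isUnit_of_dvd_one ((hF.ord 1).1 (map_zero _)))
  have hlP : ℓ • P = 0 := by
    rw [← sm_nat, hF.ord]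
    exact h.dvd
  -- the scaling
  obtain ⟨U, hU⟩ : ∃ U : N, U = algebraMap G N u := ⟨_, rfl⟩
  have hU0 : U ≠ 0 := by
    rw [hU]
    exact (map_ne_zero _).2 hs.ne
  have haN : algebraMap F N a = (CD.A : N) * U ^ 4 := by
    rw [IsScalarTower.algebraMap_apply F G N, hs.ha, hU, map_mul, map_pow, map_intCast]
  have hbN : algebraMap F N b = (CD.B : N) * U ^ 6 := by
    rw [IsScalarTower.algebraMap_apply F G N, hs.hb, hU, map_mul, map_pow, map_intCast]
  have hiso := TH.sc_iso (N := F) (F := N) hU0 haN hbN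
  obtain ⟨C, hC⟩ : ∃ C : VariableChange N, C = ⟨(Units.mk0 U hU0)⁻¹, 0, 0, 0⟩ := ⟨_, rfl⟩
  rw [← hC] at hiso
  have hCu : ((C.u : Nˣ) : N) = U⁻¹ := by rw [hC, Units.val_inv_eq_inv_val, Units.val_mk0]
  have hCr : C.r = 0 := by rw [hC]
  have hCs : C.s = 0 := by rw [hC]
  have hCt : C.t = 0 := by rw [hC]
  have hcx : cx C P = xc P * U ^ 2 := by
    rw [cx, hCu, hCr, sub_zero, inv_pow, div_inv_eq_mul]
  have hcy : cy C P = yc P * U ^ 3 := by
    rw [cy, hCu, hCr, hCs, hCt, zero_mul, sub_zero, sub_zero, inv_pow, div_inv_eq_mul]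
  -- the coordinates are fixed by the decomposition group
  obtain ⟨ι⟩ := PH.exists_emb N
  obtain ⟨κ⟩ := HU.exists_kb
  have hco : ∀ s : Gal(N/F), gpl s v = v → s (cx C P) = cx C P ∧ s (cy C P) = cy C P := by
    intro s hsv
    have h1 := hfix s hsv
    obtain ⟨e1, e2⟩ := HU.sm_unit (κ.comp ι) ((θ (rs G s))⁻¹) (ga s P)
    have e0 : sm N ((((θ (rs G s))⁻¹ : (𝓞 K)ˣ)) : 𝓞 K) (ga s P) = P := h1
    rw [e0, xc_gk] at e1
    rw [e0, yc_gk] at e2
    have hsU : s U = algebraMap K N (((θ (rs G s) : (𝓞 K)ˣ) : 𝓞 K) : K) * U := by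
      rw [hU, ← rs_apply, hs.th, map_mul, ← IsScalarTower.algebraMap_apply K G N]
    have hζ : algebraMap K N ((((θ (rs G s))⁻¹ : (𝓞 K)ˣ) : 𝓞 K) : K) *
        algebraMap K N (((θ (rs G s) : (𝓞 K)ˣ) : 𝓞 K) : K) = 1 := by
      rw [← map_mul]
      have e3 : ((((θ (rs G s))⁻¹ : (𝓞 K)ˣ) : 𝓞 K) : K) * (((θ (rs G s) : (𝓞 K)ˣ) : 𝓞 K) : K) =
          (((((θ (rs G s))⁻¹ * θ (rs G s) : (𝓞 K)ˣ)) : 𝓞 K) : K) := by
        rw [Units.val_mul]
        exact (map_mul (algebraMap (𝓞 K) K) _ _).symm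
      rw [e3, inv_mul_cancel, Units.val_one]
      have e4 : ((1 : 𝓞 K) : K) = 1 := map_one (algebraMap (𝓞 K) K)
      rw [e4, map_one]
    obtain ⟨ζ, hz⟩ : ∃ ζ, ζ = algebraMap K N (((θ (rs G s) : (𝓞 K)ˣ) : 𝓞 K) : K) := ⟨_, rfl⟩
    obtain ⟨ζ', hz'⟩ : ∃ ζ', ζ' = algebraMap K N ((((θ (rs G s))⁻¹ : (𝓞 K)ˣ) : 𝓞 K) : K) :=
      ⟨_, rfl⟩
    rw [← hz, ← hz'] at hζ
    rw [← hz] at hsU
    rw [← hz'] at e1 e2
    rw [hcx, hcy, map_mul, map_mul, map_pow, map_pow, ← e1, ← e2, hsU]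
    constructor
    · linear_combination (xc P * U ^ 2) * (ζ' * ζ + 1) * hζ
    · linear_combination (yc P * U ^ 3) * ((ζ' * ζ) ^ 2 + ζ' * ζ + 1) * hζ
  obtain ⟨Z, _, _, _, _, _, _, _, _, hZ1, hZ2, hZ3⟩ := exists_dec (F := F) v
  obtain ⟨z₁, hz₁⟩ := hZ1 (cx C P) fun s hsv => (hco s hsv).1
  obtain ⟨z₂, hz₂⟩ := hZ1 (cy C P) fun s hsv => (hco s hsv).2
  have hCF : C • EF N = (cv a b).map (algebraMap F N) := by rw [EF_eq]; exact hiso
  have hCZ : C • EF N = ((cv a b).map (algebraMap F Z)).map (algebraMap Z N) := by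
    rw [hCF, WeierstrassCurve.map_map, ← IsScalarTower.algebraMap_eq]
  have hgZ : Gd ((cv a b).map (algebraMap F Z)) (v.under (𝓞 Z)) :=
    gd_ptZ hCZ v h.hl h.five hvl hP0 hlP hz₁ hz₂
  have hgd : Gd (cv a b) (v.under (𝓞 F)) := gd_dec hZ2 hgZ
  have hwϖ : (v.under (𝓞 Z)).valuation Z (algebraMap K Z (ϖ : K)) = 1 := by
    refine le_antisymm (v_alg_le _ _) (not_lt.1 fun h2 => ?_)
    rw [← val_map_lt, ← IsScalarTower.algebraMap_apply K Z N, hvϖ] at h2
    exact lt_irrefl _ h2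
  have h1 := hv_torsZ hCZ hE hgZ hF.ord hwϖ hz₁ hz₂
  have hu : (v.under (𝓞 Z)).under (𝓞 F) = v.under (𝓞 F) :=
    HeightOneSpectrum.ext (Ideal.under_under _)
  have hfm : Fm (cv a b) := tw_fm hCF
  have e2 := PH.hv_up (F' := Z) hE hfm (v.under (𝓞 Z)) (by rw [hu]; exact hgd)
  rw [hZ3, pow_one, hu] at e2
  rw [e2] at h1
  exact hc _ hgF hgd h1

end

end Pool.Agent.Lib.MP_1a91b9_nuY.BE
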