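import Pool.Agent.Lib.MP_1a91b9_nuY.BE.DVal
import Pool.Agent.Lib.MP_1a91b9_nuY.BF.Nd
import Pool.Agent.Lib.MP_1a91b9_nuY.BF.Vt
import Pool.Agent.Lib.MP_1a91b9_nuY.BF.TopN
import Pool.Agent.Lib.MP_1a91b9_nuY.BF.Base

/-!
# The vanishing theorem from the unit property

The decomposition groups at the bad places act non-trivially on `P` for the twisted action.
-/

set_option autoImplicit false
set_option linter.unusedSectionVars false

namespace Pool.Agent.Lib.MP_1a91b9_nuY.BE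

variable [Pool.Agent.Lib.MP_1a91b9_nuT.CD]

open NumberField IsDedekindDomain WeierstrassCurve Pool.Agent.Lib.MP_1a91b9_nuT
open Pool.Agent.Lib.MP_1a91b9_nuX Pool.Agent.Lib.MP_1a91b9_nuX.DB Pool.Agent.Lib.MP_1a91b9_nuX.DG
open Pool.Agent.Lib.MP_1a91b9_nuX.DX (rs toF rs_apply rs_mul rs_toF toF_apply ga_toF exists_lift exists_of_rs_one)
open Pool.Agent.Lib.MP_1a91b9_nuE (exists_fp1 absNorm_natK)
open Pool.Agent.Lib.MP_1a91b9_nuY.TS Pool.Agent.Lib.MP_1a91b9_nuY.TX Pool.Agent.Lib.MP_1a91b9_nuY.BF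
open Pool.Agent.Lib.MP_1a91b9_nuY

noncomputable section

section
variable [FP] [HC]
variable {μ : 𝓞 K} {H : Subgroup (CU μ)} {ϖ : 𝓞 K} {ℓ q : ℕ} {F G N : Type}
  [Field F] [NumberField F] [Algebra K F] [Field G] [NumberField G] [Algebra K G] [Algebra F G]
  [IsScalarTower K F G] [IsGalois F G] [DecidableEq G] [Field N] [NumberField N] [Algebra K N]
  [Algebra F N] [Algebra G N] [IsScalarTower K F N] [IsScalarTower K G N] [IsScalarTower F G N]
  [IsGalois F N] [IsGalois G N] [DecidableEq N] {k : Gal(G/F) → 𝓞 K} {P : Pt N} {J : Pt G}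

variable (D : TwX H ϖ ℓ q F G N k P J)
include D

/-- an isotypic function vanishes at the places which are fixed by some `s` which moves `P` -/
theorem pl_fix {f : HeightOneSpectrum (𝓞 N) → ZMod ℓ} (h2 : IsoPl G ℓ P f)
    (h3 : ∀ (s : Gal(N/F)) (W : HeightOneSpectrum (𝓞 N)), gk G k s P = P → f (gpl s W) = f W)
    {w : HeightOneSpectrum (𝓞 N)} {s : Gal(N/F)} (hs : gk G k s P ≠ P) (hw : gpl s w = w) :
    f w = 0 := by
  have h := D.pd
  have hF := D.full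
  obtain ⟨c, hc0, hc⟩ := exists_gk D.kap h.prime hF.ord s
  obtain ⟨B, hB⟩ := h2 w
  have hc1 : ¬ ϖ ∣ c - 1 := by
    intro hd
    apply hs
    rw [hc, (hF.ord.sm_eq_iff c 1).2 hd, map_one]
    rfl
  obtain ⟨d, e, he⟩ := h.inv hc1
  have hd0 : ¬ ϖ ∣ d := by
    intro hd
    apply h.prime.not_isUnit
    apply isUnit_of_dvd_one
    have e1 : (1 : 𝓞 K) = (c - 1) * d - ϖ * e := by
      rw [← he]
      ring
    rw [e1]
    exact dvd_sub (hd.mul_left _) (dvd_mul_right _ _)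
  have hcd : ¬ ϖ ∣ c * d := fun hd => (h.prime.dvd_or_dvd hd).elim hc0 hd0
  obtain ⟨τ, hτ⟩ := hF.all d hd0
  obtain ⟨τ', hτ'⟩ := hF.all (c * d) hcd
  have h4 := hB τ d hτ
  have h5 := hB τ' (c * d) hτ'
  have hk1 : gk G k (toF F τ) P = sm N d P := by rw [TS.gk_toF D.kap, hτ]
  have hk2 : gk G k (toF F τ') P = sm N (c * d) P := by rw [TS.gk_toF D.kap, hτ']
  obtain ⟨t, ht⟩ : ∃ t : Gal(N/F), t = toF F τ * s * (toF F τ')⁻¹ := ⟨_, rfl⟩
  have ht1 : t * toF F τ' = toF F τ * s := by rw [ht, inv_mul_cancel_right]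
  have htP : gk G k t P = P := by
    obtain ⟨a, -, ha⟩ := exists_gk D.kap h.prime hF.ord t
    have e1 : gk G k (t * toF F τ') P = sm N (c * d) (sm N a P) := by
      rw [TS.gk_mul D.kap, hk2, TS.gk_sm, ha]
    have e2 : gk G k (t * toF F τ') P = sm N (c * d) P := by
      rw [ht1, TS.gk_mul D.kap, hc, TS.gk_sm, hk1, sm_mul]
    have e3 : sm N (c * d * a) P = sm N (c * d) P := by rw [sm_mul, ← e1, e2]
    have e4 := (hF.ord.sm_eq_iff _ _).1 e3
    have e5 : ϖ ∣ (c * d) * (a - 1) := by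
      have e6 : c * d * a - c * d = c * d * (a - 1) := by ring
      rwa [e6] at e4
    have e6 : ϖ ∣ a - 1 := (h.prime.dvd_or_dvd e5).resolve_left hcd
    rw [ha, (hF.ord.sm_eq_iff a 1).2 e6, map_one]
    rfl
  have h6 : f (gpl τ w) = f (gpl τ' w) := by
    have e1 := h3 t (gpl (toF F τ') w) htP
    rw [← gpl_mul, ht1, gpl_mul, hw] at e1
    exact e1
  have h7 : B ((c - 1) * d) = 0 := by
    have e1 : (c - 1) * d = c * d - d := by ring
    rw [e1, map_sub, ← h5, ← h4, h6, sub_self]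
  have h8 : B (ϖ * e) = 0 := IsoPl.map_dvd h hF hB (dvd_mul_right _ _)
  have h9 : B 1 = 0 := by
    have e1 : (1 : 𝓞 K) = (c - 1) * d - ϖ * e := by
      rw [← he]
      ring
    rw [e1, map_sub, h7, h8, sub_self]
  have h10 := hB 1 1 (by
    rw [ga_one, map_one]
    rfl)
  rw [gpl_one, h9] at h10
  exact h10

/-- the vanishing theorem; twisted condition at the bad places -/
theorem vt_coreK (hU : MP_1a91b9_nuT.DS.UnrL ℓ G) (hnd : NDX F H k ϖ J)
    (hDT : ∀ v : HeightOneSpectrum (𝓞 N), v.valuation N (bD N) < 1 →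
      ∃ s : Gal(N/F), gk G k s P ≠ P ∧ gpl s v = v) {y : Nˣ} (hy : VV G ϖ ℓ P y)
    (hk : IsoK G k ℓ P y) : ∃ z : Nˣ, y = z ^ ℓ := by
  classical
  have hfin : Finite (U H) := D.top.finU
  let _ : Fintype (U H) := Fintype.ofFinite _
  have h := D.pd
  have hF := D.full
  obtain ⟨T, iv, n, hT⟩ := exists_trD h
  obtain ⟨g, hg1, hg2, hg3⟩ := MP_1a91b9_nuT.DG.exists_primgenG h
  obtain ⟨τ, hτ⟩ := hF.all g hg2
  obtain ⟨N₁, i1, i2, i3, i4, i5, τ₁, S⟩ := D.exists_sub hg1 hτ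
  obtain ⟨y₁, z0, hy1⟩ := D.proj S hk
  have hin : MP_1a91b9_nuT.DS.inU N₁ N y₁ = y * (z0⁻¹) ^ ℓ := by
    rw [hy1, inv_pow, mul_inv_cancel_right]
  have hiso1 : Iso G ℓ P (MP_1a91b9_nuT.DS.inU N₁ N y₁) := by
    rw [hin]
    exact Iso.mul h hF hy.iso (Iso.pow_ell h hF _)
  have hT1 : IsoT ϖ g ℓ τ₁ y₁ := D.isoT S hg1 hτ hiso1
  have hod : ∀ w : HeightOneSpectrum (𝓞 N₁), (ℓ : ℤ) ∣ od w (y₁ : N₁) := by
    refine S.od_desc h.hl (Units.ne_zero _) fun W => ?_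
    have e1 : algebraMap N₁ N (y₁ : N₁) = (y : N) * ((z0⁻¹ : Nˣ) : N) ^ ℓ := by
      have e2 := congrArg (fun x : Nˣ => (x : N)) hin
      rw [← Units.val_pow_eq_pow_val, ← Units.val_mul]
      exact e2
    rw [e1, od_mul W (Units.ne_zero _) (pow_ne_zero _ (Units.ne_zero _)), od_pow]
    exact dvd_add (hy.od W) (dvd_mul_right _ _)
  rcases cl_units h hg1 hod hT1 with ⟨ε, s, hε, hys⟩ | ⟨f₁, ⟨v, hv⟩, hf, hi⟩
  · have hisoε : Iso G ℓ P (MP_1a91b9_nuT.DS.inU N₁ N ε) := by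
      have e1 : ε = y₁ * (s⁻¹) ^ ℓ := by rw [hys, inv_pow, mul_inv_cancel_right]
      rw [e1, map_mul, map_pow]
      exact Iso.mul h hF hiso1 (Iso.pow_ell h hF _)
    obtain ⟨c, x, z, hTI, hx, hcz⟩ := D.iso_unitX S hT hU hnd hg1 hg3 hτ hε hisoε
    obtain ⟨t, ht⟩ : ∃ t : Nˣ, t = z * MP_1a91b9_nuT.DS.inU N₁ N s * z0 := ⟨_, rfl⟩
    have hy2' : y = x * t ^ ℓ := by
      rw [hy1, hys, map_mul, map_pow, hcz, ht, mul_pow, mul_pow]
      ac_rfl
    have hy2 : (y : N) = (x : N) * (t : N) ^ ℓ := by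
      rw [hy2', Units.val_mul, Units.val_pow_eq_pow_val]
    have hc : ∀ u, ϖ ∣ c u := by
      refine D.ndx_up hnd hTI fun W hW => ?_
      obtain ⟨b, e, hb1, hb2⟩ := hy.loc W hW
      have hxc : W.valuation N (XX T iv n (up N P) (up N J) c) = 1 :=
        XX_val h hT D.top.ordP D.top.copw D.top.nlam D.top.ord (W.valuation N) c
      obtain ⟨r, hr⟩ : ∃ r : N, r = (t : N) * b := ⟨_, rfl⟩
      have hyr : (y : N) * b ^ ℓ = XX T iv n (up N P) (up N J) c * r ^ ℓ := by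
        rw [hy2, hr, ← hx]
        ring
      have hwr : W.valuation N (r ^ ℓ) = 1 := by
        rw [hyr, map_mul, hxc, one_mul] at hb1
        exact hb1
      have hr0 : r ^ ℓ ≠ 0 := by
        intro h0
        rw [h0, map_zero] at hwr
        exact zero_ne_one hwr
      have hz : W.valuation N (XX T iv n (up N P) (up N J) c - (e / r) ^ ℓ) ≤
          WithZero.exp (-2 : ℤ) := by
        have e1 : XX T iv n (up N P) (up N J) c - (e / r) ^ ℓ =
            ((y : N) * b ^ ℓ - e ^ ℓ) / r ^ ℓ := by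
          rw [hyr, div_pow]
          field_simp
        rw [e1, map_div₀, hwr, div_one]
        exact hb2
      exact XX_pow h hT D.top.ordP D.top.copw D.top.nlam D.top.ord W hW (D.top.odP W hW) hz
    have hx1 : (x : N) = 1 := by
      rw [hx]
      exact XX_zero h hT D.top.ordP D.top.copw D.top.nlam D.top.ord hc
    refine ⟨t, ?_⟩
    rw [hy2', Units.val_eq_one.1 hx1, one_mul]
  · obtain ⟨h1, h2, h3, h4⟩ := D.f_up S hg1 hτ hf hi
    obtain ⟨W, hW⟩ := h4 v hv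
    have hf3 : ∀ w : HeightOneSpectrum (𝓞 N), w.valuation N (bD N) < 1 →
        f2 (L := N) f₁ w = 0 := by
      intro w hw
      obtain ⟨s, hs1, hs⟩ := hDT w hw
      exact pl_fix D h2 h3 hs1 hs
    exact absurd (D.no_hX hnd h1 h2 h3 hf3 W) hW

end

section
variable [HC]
variable {μ : 𝓞 K} {H : Subgroup (CU μ)} {F G : Type} [Field F] [NumberField F] [Algebra K F]
  [Field G] [NumberField G] [Algebra K G] [Algebra F G] [IsScalarTower K F G] [IsGalois F G]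
  [DecidableEq G] {k : Gal(G/F) → 𝓞 K} {J : Pt G} {f b : 𝓞 K} {Ψ : Ideal (𝓞 F) → 𝓞 K}

/-- the Selmer groups of the twist over the base field are trivial if `ℓ` satisfies the unit
property -/
theorem vtk_unit (hAB : AB H F G J) (hM : Md μ) (hk : Kap F G k) (hΨ : HF f F Ψ) (hμf : μ ∣ f)
    (hfr : FrK F G k b Ψ) (hb : ∀ v : HeightOneSpectrum (𝓞 K), b ∈ v.asIdeal → μ ∈ v.asIdeal)
    (hbad : bO ∣ b) {ϖ : 𝓞 K} {ℓ q : ℕ} (h : PD ϖ ℓ q)
    (hμ : (Ideal.absNorm (Ideal.span {μ})).Coprime ℓ) (hcu : ¬ ℓ ∣ Nat.card (U H))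
    (hDT : DTK F G k b ϖ) (hU : UnitT ℓ F Ψ) : VTK F G k ϖ ℓ := by
  classical
  have hℓ := h.hl
  have h2 : ℓ ≠ 2 := by
    have := h.five
    omega
  obtain ⟨fp, n, hn, h1, hnℓ⟩ := exists_fp1 hAB.ne hℓ h2 hμ
  let _ : FP := fp
  have hn' : (pk : 𝓞 K) = (n : 𝓞 K) := hn
  have h1' : μ ∣ (pk : 𝓞 K) - 1 := h1
  have hkk : ¬ μ ∣ (pk : 𝓞 K) := by
    intro hd
    apply hM.not_unit
    have h3 := dvd_sub hd h1'
    rw [sub_sub_cancel] at h3
    exact isUnit_of_dvd_one h3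
  have hcw : CW ℓ μ := by
    intro hd
    rw [← Ideal.span_singleton_mul_span_singleton, map_mul, hn', absNorm_natK] at hd
    rcases hℓ.dvd_mul.1 hd with h3 | h3
    · exact (Nat.Prime.coprime_iff_not_dvd hℓ).1 hμ.symm h3
    · have h4 := hℓ.dvd_of_dvd_pow h3
      exact hℓ.one_lt.ne' (Nat.dvd_one.1 ((Nat.dvd_add_right h4).1 hnℓ))
  have hco : IsCoprime (ℓ : 𝓞 K) μ :=
    (IsCoprime.of_isCoprime_of_dvd_left (hcw.copK hℓ) (dvd_mul_right _ _)).symm
  have hunr := ab_unrG hAB h hco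
  have hgK : IsGalois K G := hAB.gal
  have hgF : IsGalois K F := hAB.galF
  obtain ⟨r, hr⟩ : ∃ r : Gal(F/K) → Gal(G/K),
      ∀ (s : Gal(F/K)) (x : F), r s (algebraMap F G x) = algebraMap F G (s x) :=
    ⟨fun s => AlgEquiv.liftNormal s G, fun s x => AlgEquiv.liftNormal_commutes s G x⟩
  have hval : ∀ v : HeightOneSpectrum (𝓞 G), v.valuation G (algebraMap K G (ϖ : K)) < 1 →
      v.valuation G (dX F k r J) = 1 := by
    intro v hv
    have hvl : v.valuation G (algebraMap (𝓞 G) G ((ℓ : ℕ) : 𝓞 G)) < 1 := by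
      obtain ⟨c, hc⟩ := h.dvd
      have e : algebraMap (𝓞 G) G ((ℓ : ℕ) : 𝓞 G) =
          algebraMap K G (ϖ : K) * algebraMap K G (c : K) := by
        rw [← map_mul]
        have e1 : ((ϖ * c : 𝓞 K) : K) = (ϖ : K) * (c : K) := map_mul _ _ _
        rw [← e1, ← hc]
        have e2 : (((ℓ : ℕ) : 𝓞 K) : K) = (ℓ : K) := map_natCast _ _
        rw [e2, map_natCast, map_natCast]
      rw [e, map_mul]
      exact mul_lt_one_of_lt_of_le hv (v_alg_le (v.valuation G) c)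
    have hlv : ((ℓ : ℕ) : 𝓞 G) ∈ v.asIdeal := (v.valuation_lt_one_iff_mem _).1 hvl
    exact dX_unit hAB hM hk hΨ hμf hfr hb hℓ h2 hμ hn' h1' hnℓ hU hr v hlv
  intro N _ _ _ _ _ _ _ _ _ _ P hF y hy
  have iG : IsGalois G N := IsGalois.tower_top_of_isGalois F G N
  have D : TwX H ϖ ℓ q F G N k P J := ⟨hAB, hk, topN hAB hkk h hcw hcu hF⟩
  have hVV : VV G ϖ ℓ P y := by
    refine ⟨hy.vw.od, hy.vw.iso, fun w hw => hy.vw.loc w hw (hunr _ ?_)⟩
    rw [← val_map_lt, map_natCast, h.val_ell hw]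
    exact hw
  refine vt_coreK D hunr (D.ndx hr hval) (fun v hv => hDT N P hF v ?_) hVV hy.iso
  obtain ⟨c, hc⟩ := hbad
  have e1 : (b : K) = (bO : K) * (c : K) := by
    rw [hc]
    exact map_mul (algebraMap (𝓞 K) K) _ _
  rw [e1, map_mul, map_mul, bO_map]
  exact mul_lt_one_of_lt_of_le hv (v_alg_le (v.valuation N) c)

end

end

end Pool.Agent.Lib.MP_1a91b9_nuY.BE
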