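import Pool.Agent.Lib.MP_1a91b9_nuY.BF.BaseY
import Pool.Agent.Lib.MP_1a91b9_nuY.TX.Cnt
import Pool.Agent.Lib.MP_1a91b9_nuY.BE.Vt
import Pool.Agent.Lib.MP_1a91b9_nuY.BE.Dt
import Pool.Agent.Lib.MP_1a91b9_nuE.Cu

/-!
# The property of the base field: explicit conditions on `ℓ`
-/

set_option autoImplicit false
set_option linter.unusedSectionVars false

namespace Pool.Agent.Lib.MP_1a91b9_nuY.BE

variable [Pool.Agent.Lib.MP_1a91b9_nuT.CD]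

open NumberField IsDedekindDomain WeierstrassCurve Module Pool.Agent.Lib.MP_1a91b9_nuT
open Pool.Agent.Lib.MP_1a91b9_nuX Pool.Agent.Lib.MP_1a91b9_nuX.DB Pool.Agent.Lib.MP_1a91b9_nuX.DG
open Pool.Agent.Lib.MP_1a91b9_nuG (up)
open Pool.Agent.Lib.MP_1a91b9_nuX.TG (gB nAb dvd_nAb nAb_dvd_gB f_dvd_gB six_dvd_gB AbT)
open Pool.Agent.Lib.MP_1a91b9_nuX.QW (ScD)
open Pool.Agent.Lib.MP_1a91b9_nuX.GL (EllK)
open Pool.Agent.Lib.MP_1a91b9_nuX.PG (Gd)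
open Pool.Agent.Lib.MP_1a91b9_nuX.PH (Hv)
open Pool.Agent.Lib.MP_1a91b9_nuT.Per (cv)
open Pool.Agent.Lib.MP_1a91b9_nuY.TS Pool.Agent.Lib.MP_1a91b9_nuY.TX
open Pool.Agent.Lib.MP_1a91b9_nuY

noncomputable section

private theorem bu_unit {ℓ : ℕ} (hℓ : ℓ.Prime) (h : IsUnit (ℓ : 𝓞 K)) : False := by
  have h1 := MP_1a91b9_nuE.absNorm_natK ℓ
  rw [Ideal.span_singleton_eq_top.2 h, Ideal.absNorm_top] at h1
  have h2 := hℓ.one_lt
  have h3 : 1 < ℓ ^ 2 := Nat.one_lt_pow two_ne_zero h2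
  omega

private theorem bu_cop {μ : 𝓞 K} {ℓ : ℕ} (hℓ : ℓ.Prime) (h : IsCoprime μ (ℓ : 𝓞 K)) :
    (Ideal.absNorm (Ideal.span {μ})).Coprime ℓ := by
  rw [Nat.coprime_comm, Nat.Prime.coprime_iff_not_dvd hℓ]
  intro hd
  have h1 := h.map cj
  rw [map_natCast] at h1
  have h2 := h.mul_left h1
  rw [mul_cj] at h2
  obtain ⟨c, hc⟩ := hd
  rw [hc, Nat.cast_mul] at h2
  exact bu_unit hℓ (h2.isUnit_of_dvd' (dvd_mul_right _ _) dvd_rfl)

variable [HC]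

section
variable {μ : 𝓞 K} {H : Subgroup (CU μ)} {F G : Type} [Field F] [NumberField F] [Algebra K F]
  [Field G] [NumberField G] [Algebra K G] [Algebra F G] [IsScalarTower K F G] [IsGalois F G]
  [DecidableEq G] {J : Pt G} {g : 𝓞 K} {a b : F} {u : G} {θ : Gal(G/F) →* (𝓞 K)ˣ}

/-- the degree of `G` over `F` is prime to `ℓ` -/
theorem deg_cop (hAB : AB H F G J) {ℓ : ℕ} (hℓ : ℓ.Prime) (hcu : ¬ ℓ ∣ Nat.card (DG.U H)) :
    (finrank F G).Coprime ℓ := by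
  classical
  have hgK : IsGalois K G := hAB.gal
  have hfU : Finite (DG.U H) := by
    have h1 : Finite (𝓞 K ⧸ Ideal.span {μ}) := by
      refine Ideal.finiteQuotientOfFreeOfNeBot _ ?_
      rw [Ne, Ideal.span_singleton_eq_bot]
      exact hAB.ne
    infer_instance
  choose c hc using hAB.mem
  have hinj : Function.Injective c := by
    intro σ τ he
    have h1 : ga σ J = ga τ J := by rw [hc, hc, he]
    have h2 : ga (τ⁻¹ * σ) J = J := by rw [ga_mul, h1, ← ga_mul, inv_mul_cancel, ga_one]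
    have h3 := hAB.gen _ h2
    exact (inv_mul_eq_one.1 h3).symm
  have hsur : Function.Surjective c := by
    intro v
    obtain ⟨σ, hσ⟩ := hAB.surj v
    exact ⟨σ, smU_inj hAB.ord ((hc σ).symm.trans hσ)⟩
  have hcard : Nat.card Gal(G/K) = Nat.card (DG.U H) := Nat.card_congr (Equiv.ofBijective c ⟨hinj, hsur⟩)
  rw [IsGalois.card_aut_eq_finrank] at hcard
  have hd : finrank F G ∣ finrank K G := ⟨finrank K F, by
    rw [mul_comm]
    exact (finrank_mul_finrank K F G).symm⟩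
  rw [Nat.coprime_comm, Nat.Prime.coprime_iff_not_dvd hℓ]
  intro h1
  exact hcu (hcard ▸ h1.trans hd)

/-- **The property of the base field under explicit conditions on `ℓ`.** -/
theorem baseY_unit (hE : EllK) (hAB : AB H F G J) (hM : Md μ) (hg0 : g ≠ 0) (hg : gB μ ∣ g)
    (hb : ∀ v : HeightOneSpectrum (𝓞 K), g ∈ v.asIdeal → μ ∈ v.asIdeal)
    (hs : ScD a b u θ) {ℓ : ℕ} (hℓ : ℓ.Prime) (hgl : IsCoprime g (ℓ : 𝓞 K))
    (hP : ∀ P : HeightOneSpectrum (𝓞 K), μ ∈ P.asIdeal → ¬ ℓ ∣ Ideal.absNorm P.asIdeal - 1)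
    (h2 : ¬ ℓ ∣ 2 ^ finrank K F - 1) (hU : UnitT ℓ F (psT F J g θ))
    (hc : ∀ v : HeightOneSpectrum (𝓞 F), up g F ∈ v.asIdeal → Gd (cv a b) v →
      IsCoprime (Hv (cv a b) v - 1) (ℓ : 𝓞 K)) :
    BaseY g ℓ F G (kth θ) (psT F J g θ) := by
  have hgK : IsGalois K G := hAB.gal
  have hTK : AbT μ K J := ⟨hAB.ne, hAB.ord, hAB.gen⟩
  have hTF : AbT μ F J := hTK.mid
  have hk := kap_kth θ
  have hΨ := hf_psT (θ := θ) hTF hg0 hg
  have hfr := frK_psT (θ := θ) hTF hg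
  have hur := ur_psT (F := F) hTF hg
  have hbad : (bO : 𝓞 K) ∣ g := (six_dvd_gB μ).trans hg
  have hfg : HC.f ∣ g := (f_dvd_gB μ).trans hg
  have hμg : μ ∣ g := ((dvd_nAb μ).trans (nAb_dvd_gB μ)).trans hg
  have hμl : IsCoprime μ (ℓ : 𝓞 K) := IsCoprime.of_isCoprime_of_dvd_left hgl hμg
  have hgood : ¬ (ℓ : ℤ) ∣ CD.bad := by
    rintro ⟨c, hc'⟩
    have h1 : (ℓ : 𝓞 K) ∣ (bO : 𝓞 K) := by
      refine ⟨(c : 𝓞 K), ?_⟩
      have h3 : (bO : 𝓞 K) = ((CD.bad : ℤ) : 𝓞 K) := rfl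
      rw [h3, hc', Int.cast_mul, Int.cast_natCast]
    exact bu_unit hℓ (hgl.isUnit_of_dvd' (h1.trans hbad) dvd_rfl)
  have hμN := bu_cop hℓ hμl
  have hcu : ¬ ℓ ∣ Nat.card (DG.U H) := by
    refine MP_1a91b9_nuE.card_U hAB.ne hℓ fun P hPμ => ⟨fun hd => ?_, hP P hPμ⟩
    have h1 : Ideal.absNorm P.asIdeal ∣ Ideal.absNorm (Ideal.span {μ}) :=
      map_dvd Ideal.absNorm (Ideal.dvd_span_singleton.2 hPμ)
    exact (Nat.Prime.coprime_iff_not_dvd hℓ).1 hμN.symm (hd.trans h1)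
  have hUG : ∀ {ϖ : 𝓞 K} {q : ℕ}, PD ϖ ℓ q → MP_1a91b9_nuT.DS.UnrL ℓ G := fun h =>
    BF.ab_unrG hAB h hμl.symm
  have hUF : MP_1a91b9_nuT.DS.UnrL ℓ F := unrF hAB hℓ hgood hμl.symm
  refine ⟨hgood, hΨ, hfg, hgl, h2, hUF, hU, fun ϖ q h => ?_⟩
  have hdt : DTK F G (kth θ) g ϖ := by
    refine dtk_expl hE hs h hgl fun v hv hgd hd => ?_
    have h1 := hc v hv hgd
    exact h.prime.not_isUnit (h1.isUnit_of_dvd' hd h.dvd)
  exact ⟨hk, deg_cop hAB hℓ hcu, hgl, hbad, hur, hfr, MP_1a91b9_nuW.DS.ep_of_unr (hUG h),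
    fun v hv hne => absurd (hUF v hv) hne, fun _ => hUG h,
    vtk_unit hAB hM hk hΨ hμg hfr hb hbad h hμN hcu hdt hU, hdt⟩

end

end

end Pool.Agent.Lib.MP_1a91b9_nuY.BE
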