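import Pool.Agent.Lib.MP_1a91b9_nuY.BF.DNe
import Pool.Agent.Lib.MP_1a91b9_nuY.TX.Fr
import Pool.Agent.Lib.MP_1a91b9_nuE.Dl1

/-!
# The determinant `dX` is a unit above `ℓ`
-/

set_option autoImplicit false
set_option linter.unusedSectionVars false

namespace Pool.Agent.Lib.MP_1a91b9_nuY.BE

variable [Pool.Agent.Lib.MP_1a91b9_nuT.CD]

open NumberField IsDedekindDomain WeierstrassCurve Pool.Agent.Lib.MP_1a91b9_nuT
open Pool.Agent.Lib.MP_1a91b9_nuX Pool.Agent.Lib.MP_1a91b9_nuX.DB Pool.Agent.Lib.MP_1a91b9_nuX.DG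
open Pool.Agent.Lib.MP_1a91b9_nuG (up)
open Pool.Agent.Lib.MP_1a91b9_nuX.TG (gB nAb nAb_ne dvd_nAb f_dvd_gB nAb_dvd_gB AbT)
open Pool.Agent.Lib.MP_1a91b9_nuT.PL (Ab)
open Pool.Agent.Lib.MP_1a91b9_nuE (val_char det_shift_val val_embK exists_place absNorm_natK)
open Pool.Agent.Lib.MP_1a91b9_nuY.TS Pool.Agent.Lib.MP_1a91b9_nuY.TX Pool.Agent.Lib.MP_1a91b9_nuY.BF
open Pool.Agent.Lib.MP_1a91b9_nuY

noncomputable section

private theorem dv_congr {ν a b : 𝓞 K} (hν : ν ≠ 0) (h : ν ∣ a - b) :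
    E1 (embK (a : K) / embK (ν : K)) = E1 (embK (b : K) / embK (ν : K)) := by
  obtain ⟨e, he⟩ := h
  have h1 : (a : K) = (b : K) + (ν : K) * (e : K) := by
    have h0 := congrArg (algebraMap (𝓞 K) K) he
    rw [map_sub, map_mul] at h0
    have h3 : (a : K) - (b : K) = (ν : K) * (e : K) := h0
    linear_combination h3
  have h2 : embK (a : K) / embK (ν : K) = embK (b : K) / embK (ν : K) + embK (e : K) := by
    rw [h1, map_add, map_mul, add_div, mul_div_cancel_left₀ _ (Mult.embK_ne_zero hν)]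
  rw [h2, E1_period]

private theorem dv_unit {ν : 𝓞 K} (η : (𝓞 K)ˣ) (a : 𝓞 K) :
    embK ((η : 𝓞 K) : K) * E1 (embK (((η : 𝓞 K) * a : 𝓞 K) : K) / embK (ν : K)) =
      E1 (embK (a : K) / embK (ν : K)) := by
  rw [emb_mul, mul_div_assoc, E1_unit]

private theorem dv_finU {μ : 𝓞 K} (h : μ ≠ 0) (H : Subgroup (CU μ)) : Finite (U H) := by
  have h1 : Finite (𝓞 K ⧸ Ideal.span {μ}) := by
    refine Ideal.finiteQuotientOfFreeOfNeBot _ ?_
    rw [Ne, Ideal.span_singleton_eq_bot]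
    exact h
  infer_instance

private theorem dv_det {X : Type} [Group X] [Fintype X] [DecidableEq X] (m : X → X → ℂ)
    (x w : X → ℂ) (h : ∀ s t, w s * w t * m s t = x (s * t)) :
    Matrix.det (Matrix.of fun s t : X => x (s * t)) =
      (∏ s, w s) * ((∏ s, w s) * Matrix.det (Matrix.of fun s t : X => m s t)) := by
  have e : (Matrix.of fun s t : X => x (s * t)) =
      Matrix.of fun s t => w s * (Matrix.of fun s t : X => w t * (Matrix.of fun s t : X => m s t) s t) s t := by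
    ext s t
    show x (s * t) = w s * (w t * m s t)
    rw [← h]
    ring
  rw [e, Matrix.det_mul_column, Matrix.det_mul_row]

section
variable {μ : 𝓞 K} {H : Subgroup (CU μ)} {F G : Type} [Field F] [NumberField F] [Algebra K F]
  [Field G] [NumberField G] [Algebra K G] [Algebra F G] [IsScalarTower K F G] [DecidableEq G]
  {k : Gal(G/F) → 𝓞 K} {J : Pt G}

private theorem dv_fix {σ : Gal(G/K)} (h : ∀ x : F, σ (algebraMap F G x) = algebraMap F G x) :
    ∃ β : Gal(G/F), (AlgEquiv.restrictScalars K β : Gal(G/K)) = σ :=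
  ⟨AlgEquiv.ofRingEquiv (f := σ.toRingEquiv) h, AlgEquiv.ext fun _ => rfl⟩

private theorem dv_inj (hAB : AB H F G J) {σ τ : Gal(G/K)} (h : ga σ J = ga τ J) : σ = τ := by
  have h1 : ga (τ⁻¹ * σ) J = J := by rw [ga_mul, h, ← ga_mul, inv_mul_cancel, ga_one]
  exact (inv_mul_eq_one.1 (hAB.gen _ h1)).symm

private theorem dv_mul (hAB : AB H F G J) {σ τ : Gal(G/K)} {u v : U H} (h1 : ga σ J = smU J u)
    (h2 : ga τ J = smU J v) : ga (σ * τ) J = smU J (u * v) := by
  rw [ga_mul, h2, mul_comm u v, ← smU_mul hAB.ord, ← h1]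
  unfold smU
  rw [ga_sm]

end

private theorem dv_res {F G : Type} [Field F] [NumberField F] [Algebra K F]
    [Field G] [NumberField G] [Algebra K G] [Algebra F G] [IsScalarTower K F G] [DecidableEq G]
    (β : Gal(G/F)) (Q : Pt G) : ga (AlgEquiv.restrictScalars K β : Gal(G/K)) Q = ga β Q := by
  rcases cases_pt Q with rfl | ⟨x, y, h, rfl⟩
  · rw [map_zero, map_zero]
  · rfl

variable [FP] [HC]

section
variable {μ : 𝓞 K} {H : Subgroup (CU μ)} {F G : Type} [Field F] [NumberField F] [Algebra K F]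
  [Field G] [NumberField G] [Algebra K G] [Algebra F G] [IsScalarTower K F G] [DecidableEq G]
  {k : Gal(G/F) → 𝓞 K} {J : Pt G} {f b : 𝓞 K} {Ψ : Ideal (𝓞 F) → 𝓞 K}

omit [HC] in
private theorem dv_th (hk : Kap F G k) (β : Gal(G/F)) :
    β (thX F k J) = algebraMap K G (k β : K) * thX F k J := by
  unfold thX
  rw [map_sum, Finset.mul_sum]
  refine Fintype.sum_equiv (Equiv.mulLeft β) _ _ fun σ => ?_
  show β (algebraMap K G (cj (k σ) : K) * σ (lamQ J)) =
    algebraMap K G (k β : K) * (algebraMap K G (cj (k (β * σ)) : K) * β (σ (lamQ J)))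
  have h1 : β (algebraMap K G (cj (k σ) : K)) = algebraMap K G (cj (k σ) : K) := by
    rw [IsScalarTower.algebraMap_apply K F G, β.commutes]
  have h2 : k β * cj (k (β * σ)) = cj (k σ) := by
    rw [hk.mul, map_mul, ← mul_assoc, hk.nrm, one_mul]
  have h3 : (k β : K) * (cj (k (β * σ)) : K) = (cj (k σ) : K) := by
    rw [← h2]
    rfl
  rw [map_mul, h1, ← mul_assoc, ← map_mul, h3]

/-- the values `lamQ` for an auxiliary element congruent to `1` -/
theorem lam_pt1 (hAB : AB H F G J) (hM : Md μ) (h1 : μ ∣ pk - 1) (φ : G →ₐ[K] ℂ) :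
    ∃ (η : (𝓞 K)ˣ) (u0 : U H), ∀ u : U H,
      Om * φ (lamQ (smU J u)) =
        2 * embK (μ : K) * (embK ((η : 𝓞 K) : K))⁻¹ * (embK ((pk : 𝓞 K) : K) -
          (Ideal.absNorm (Ideal.span {(pk : 𝓞 K)}) : ℂ)) *
            ((embK (μ : K))⁻¹ * E1 (embK ((rp (u * u0) : 𝓞 K) : K) / embK (μ : K))) := by
  have hpk : IsCoprime pk μ := by
    obtain ⟨b, hb⟩ := h1
    exact ⟨1, -b, by linear_combination hb⟩
  have hl : ¬ μ ∣ pk := fun h => hM.not_unit (hpk.symm.isUnit_of_dvd' dvd_rfl h)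
  obtain ⟨y0, hy0, hval⟩ := lam_val hM.ne hl hM.two φ hAB.ord
  obtain ⟨η, u0, hη⟩ := hAB.unit_mul hM hy0
  have hη0 : embK ((η : 𝓞 K) : K) ≠ 0 := Mult.embK_ne_zero η.ne_zero
  have hμ0 : embK (μ : K) ≠ 0 := Mult.embK_ne_zero hM.ne
  refine ⟨η, u0, fun u => ?_⟩
  have e2 := hval (rp u) (rp_cop u)
  have e3 : μ ∣ rp u * y0 - (η : 𝓞 K) * rp (u * u0) := by
    have e4 : rp u * y0 - (η : 𝓞 K) * rp (u * u0) =
        rp u * (y0 - η * rp u0) - η * (rp (u * u0) - rp u * rp u0) := by ring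
    rw [e4]
    exact dvd_sub (Dvd.dvd.mul_left hη _) (Dvd.dvd.mul_left (rp_mul u u0) _)
  have e5 : E1 (embK ((rp u * y0 : 𝓞 K) : K) / embK (μ : K)) =
      (embK ((η : 𝓞 K) : K))⁻¹ * E1 (embK ((rp (u * u0) : 𝓞 K) : K) / embK (μ : K)) := by
    rw [dv_congr hM.ne e3, ← dv_unit η (rp (u * u0)), inv_mul_cancel_left₀ hη0]
  have e6 : E1 (embK ((pk * (rp u * y0) : 𝓞 K) : K) / embK (μ : K)) =
      E1 (embK ((rp u * y0 : 𝓞 K) : K) / embK (μ : K)) := by
    refine dv_congr hM.ne ?_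
    have e7 : pk * (rp u * y0) - rp u * y0 = (pk - 1) * (rp u * y0) := by ring
    rw [e7]
    exact h1.mul_right _
  show Om * φ (lamQ (sm G (rp u) J)) = _
  rw [e2, e6, e5]
  field_simp

/-- the valuation of the determinant of the twisted traces -/
theorem dX_val (hAB : AB H F G J) (hM : Md μ) (h1 : μ ∣ pk - 1) (hk : Kap F G k)
    (hΨ : HF f F Ψ) (hfr : FrK F G k b Ψ)
    (hb : ∀ v : HeightOneSpectrum (𝓞 K), b ∈ v.asIdeal → μ ∈ v.asIdeal) (φ : G →ₐ[K] ℂ)
    {L : ℂ → ℂ} (hL : Differentiable ℂ L) (hL1 : ∀ s : ℂ, 2 < s.re → L s = S4.Lf (pB Ψ) s)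
    {r : Gal(F/K) → Gal(G/K)}
    (hr : ∀ (s : Gal(F/K)) (x : F), r s (algebraMap F G x) = algebraMap F G (s x))
    (A : ValuationSubring ℂ) (hμ : A.valuation (embK (μ : K)) = 1) (h2 : A.valuation 2 = 1)
    (hp : A.valuation (embK ((pk : 𝓞 K) : K) -
      (Ideal.absNorm (Ideal.span {(pk : 𝓞 K)}) : ℂ)) = 1)
    (hB' : ∀ v : HeightOneSpectrum (𝓞 F), algebraMap (𝓞 K) (𝓞 F) μ ∈ v.asIdeal →
      A.valuation (1 - pB Ψ v.asIdeal * (Ideal.absNorm v.asIdeal : ℂ) ^ (-1 : ℂ)) = 1) :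
    A.valuation (φ (dX F k r J)) = A.valuation (L 1 / Om ^ Module.finrank K F) := by
  have hg : IsGalois K F := hAB.galF
  have hfU : Finite (U H) := dv_finU hAB.ne H
  have hftU : Fintype (U H) := Fintype.ofFinite (U H)
  let hdec : DecidableEq Gal(F/K) := Classical.decEq _
  obtain ⟨res, -, hres⟩ := hAB.exists_res
  have hnot : ∀ u : U H, ¬ μ ∣ rp u := fun u h =>
    hM.not_unit ((rp_cop u).isUnit_of_dvd' h dvd_rfl)
  choose Y hY hY1 hY2 using fun u : U H =>
    Pool.Agent.Lib.MP_1a91b9_nuT.DG.exists_Z hAB.ne (hnot u) hM.inj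
  obtain ⟨η, u0, hkey⟩ := lam_pt1 hAB hM h1 φ
  obtain ⟨η₀, hη1, hη⟩ := exists_eta0 hAB hk
  have hBfin : {v : HeightOneSpectrum (𝓞 F) |
      Ideal.span {algebraMap (𝓞 K) (𝓞 F) μ} ≤ v.asIdeal}.Finite := by
    refine (Ideal.finite_factors (I := Ideal.span {algebraMap (𝓞 K) (𝓞 F) μ}) ?_).subset
      fun v hv => ?_
    · rw [Ne, Ideal.zero_eq_bot, Ideal.span_singleton_eq_bot,
        map_eq_zero_iff _ (FaithfulSMul.algebraMap_injective (𝓞 K) (𝓞 F))]
      exact hAB.ne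
    · exact Ideal.dvd_iff_le.mpr hv
  obtain ⟨B, hBdef⟩ : ∃ B, B = hBfin.toFinset := ⟨_, rfl⟩
  have hB : ∀ v, v ∈ B ↔ algebraMap (𝓞 K) (𝓞 F) μ ∈ v.asIdeal := fun v => by
    rw [hBdef, Set.Finite.mem_toFinset]
    exact Ideal.span_singleton_le_iff_mem _
  obtain ⟨ι, iι, χ, hχ1, ⟨ε, hε, hdet⟩, hχ⟩ :=
    Pool.Agent.Lib.MP_1a91b9_nuT.DG.exists_chars (G := Gal(F/K)) hAB.commF
  have hpv := prod_val hAB hM hΨ hfr hb hres hη1 hη hχ1 hχ hY hY1 hL hL1 B hB
  have hη0u : ∀ u : U H, A.valuation (η₀ u) = 1 := fun u => val_char η₀ u A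
  have hvε : A.valuation ε = 1 := by
    rcases hε with rfl | rfl
    · exact map_one _
    · rw [Valuation.map_neg, map_one]
  -- the group determinant of the Eisenstein numbers
  obtain ⟨y, hy⟩ : ∃ y : Gal(F/K) → ℂ, ∀ g, y g =
      ∑ u : U H, if res u = g then η₀ u * Y u 1 else 0 := ⟨_, fun _ => rfl⟩
  have hysum : ∀ i, ∑ g : Gal(F/K), χ i g * y g = ∑ u : U H, χ i (res u) * η₀ u * Y u 1 := by
    intro i
    have e1 : ∀ g : Gal(F/K), χ i g * y g =
        ∑ u : U H, if res u = g then χ i (res u) * η₀ u * Y u 1 else 0 := by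
      intro g
      rw [hy, Finset.mul_sum]
      refine Finset.sum_congr rfl fun u _ => ?_
      by_cases hu : res u = g
      · rw [if_pos hu, if_pos hu, hu]
        ring
      · rw [if_neg hu, if_neg hu, mul_zero]
    rw [Finset.sum_congr rfl fun g _ => e1 g, Finset.sum_comm]
    refine Finset.sum_congr rfl fun u _ => ?_
    rw [Finset.sum_ite_eq]
    exact if_pos (Finset.mem_univ _)
  have hdy : A.valuation (Matrix.det (Matrix.of fun g h : Gal(F/K) => y (g * h))) =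
      A.valuation (L 1) := by
    have hE1 : A.valuation (∏ v ∈ B,
        (1 - pB Ψ v.asIdeal * (Ideal.absNorm v.asIdeal : ℂ) ^ (-1 : ℂ))) = 1 := by
      rw [map_prod]
      exact Finset.prod_eq_one fun v hv => hB' v ((hB v).1 hv)
    rw [hdet y, Finset.prod_congr rfl fun i _ => hysum i, hpv, map_mul, map_mul, hvε, hE1, one_mul,
      mul_one]
  -- the classes of the automorphisms
  choose cl hcl using hAB.mem
  have hclm : ∀ σ τ : Gal(G/K), cl (σ * τ) = cl σ * cl τ := fun σ τ =>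
    smU_inj hAB.ord ((hcl _).symm.trans (dv_mul hAB (hcl σ) (hcl τ)))
  have hcli : ∀ σ τ : Gal(G/K), cl σ = cl τ → σ = τ := fun σ τ h =>
    dv_inj hAB ((hcl σ).trans ((congrArg (smU J) h).trans (hcl τ).symm))
  have hclb : ∀ β : Gal(G/F), η₀ (cl (AlgEquiv.restrictScalars K β : Gal(G/K))) =
      embK (cj (k β) : K) := fun β => hη β _ (by rw [← dv_res, hcl])
  have hφK : ∀ a : K, φ (algebraMap K G a) = embK a := fun a => φ.commutes a
  have hx1 : ∀ s t : Gal(F/K), η₀ (cl (r s)) * η₀ (cl (r t)) * φ (r s (r t (thX F k J))) =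
      η₀ (cl (r (s * t))) * φ (r (s * t) (thX F k J)) := by
    intro s t
    have h1 : ∀ x : F, ((r (s * t))⁻¹ * (r s * r t)) (algebraMap F G x) = algebraMap F G x := by
      intro x
      have h2 : (r s * r t) (algebraMap F G x) = r (s * t) (algebraMap F G x) := by
        rw [AlgEquiv.mul_apply, hr, hr, hr, AlgEquiv.mul_apply]
      rw [AlgEquiv.mul_apply, h2, ← AlgEquiv.mul_apply, inv_mul_cancel, AlgEquiv.one_apply]
    obtain ⟨β, hβ⟩ := dv_fix h1
    have h3 : r s * r t = r (s * t) * (AlgEquiv.restrictScalars K β : Gal(G/K)) := by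
      rw [hβ, mul_inv_cancel_left]
    have h4 : r s (r t (thX F k J)) = algebraMap K G (k β : K) * r (s * t) (thX F k J) := by
      have h5 : r s (r t (thX F k J)) = r (s * t) (β (thX F k J)) :=
        congrArg (fun ρ : Gal(G/K) => ρ (thX F k J)) h3
      rw [h5, dv_th hk, map_mul, AlgEquiv.commutes]
    have h6 : η₀ (cl (r s)) * η₀ (cl (r t)) = η₀ (cl (r (s * t))) * embK (cj (k β) : K) := by
      rw [← map_mul, ← hclm, h3, hclm, map_mul, hclb]
    have h7 : embK (cj (k β) : K) * embK (k β : K) = 1 := by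
      rw [← map_mul]
      have h8 : (cj (k β) : K) * (k β : K) = ((k β * cj (k β) : 𝓞 K) : K) := by
        rw [mul_comm]
        rfl
      rw [h8, hk.nrm]
      exact map_one embK
    rw [h6, h4, map_mul, hφK]
    linear_combination (η₀ (cl (r (s * t))) * φ (r (s * t) (thX F k J))) * h7
  have hdx : φ (dX F k r J) =
      Matrix.det (Matrix.of fun s t : Gal(F/K) => φ (r s (r t (thX F k J)))) := by
    have h2 : dX F k r J = Matrix.det (Matrix.of fun s t : Gal(F/K) => r s (r t (thX F k J))) := rfl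
    rw [h2]
    exact RingHom.map_det (φ : G →+* ℂ) _
  have hd := dv_det (fun s t : Gal(F/K) => φ (r s (r t (thX F k J))))
    (fun s => η₀ (cl (r s)) * φ (r s (thX F k J))) (fun s => η₀ (cl (r s))) hx1
  rw [← hdx] at hd
  have hpw : A.valuation (∏ s : Gal(F/K), η₀ (cl (r s))) = 1 := by
    rw [map_prod]
    exact Finset.prod_eq_one fun s _ => hη0u _
  have hdv : A.valuation (φ (dX F k r J)) = A.valuation (Matrix.det
      (Matrix.of fun s t : Gal(F/K) => η₀ (cl (r (s * t))) * φ (r (s * t) (thX F k J)))) := by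
    rw [hd, map_mul, map_mul, hpw, one_mul, one_mul]
  -- the sums over the classes
  have hres2 : ∀ (s : Gal(F/K)) (β : Gal(G/F)),
      res (cl (r s * (AlgEquiv.restrictScalars K β : Gal(G/K)))) = s := by
    intro s β
    refine AlgEquiv.ext fun x => (algebraMap F G).injective ?_
    rw [hres _ _ (hcl _) x, AlgEquiv.mul_apply, AlgEquiv.restrictScalars_apply, β.commutes, hr]
  have hxs : ∀ s : Gal(F/K), η₀ (cl (r s)) * φ (r s (thX F k J)) =
      ∑ u : U H, if res u = s then η₀ u * φ (lamQ (smU J u)) else 0 := by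
    intro s
    have e1 : η₀ (cl (r s)) * φ (r s (thX F k J)) = ∑ β : Gal(G/F),
        η₀ (cl (r s * (AlgEquiv.restrictScalars K β : Gal(G/K)))) *
          φ (lamQ (smU J (cl (r s * (AlgEquiv.restrictScalars K β : Gal(G/K)))))) := by
      unfold thX
      rw [map_sum, map_sum, Finset.mul_sum]
      refine Finset.sum_congr rfl fun β _ => ?_
      have h1 : lamQ (smU J (cl (r s * (AlgEquiv.restrictScalars K β : Gal(G/K))))) =
          r s (β (lamQ J)) := by
        rw [← hcl, lamQ_ga]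
        rfl
      rw [h1, hclm, map_mul η₀, hclb, map_mul (r s), map_mul φ, AlgEquiv.commutes, hφK]
      ring
    rw [e1, ← Finset.sum_filter]
    refine Finset.sum_bij (fun β _ => cl (r s * (AlgEquiv.restrictScalars K β : Gal(G/K))))
      (fun β _ => ?_) (fun β _ β' _ h => ?_) (fun u hu => ?_) (fun _ _ => rfl)
    · rw [Finset.mem_filter]
      exact ⟨Finset.mem_univ _, hres2 s β⟩
    · have h2 := mul_left_cancel (hcli _ _ h)
      exact AlgEquiv.ext fun x => congrArg (fun ρ : Gal(G/K) => ρ x) h2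
    · rw [Finset.mem_filter] at hu
      obtain ⟨σ, hσ⟩ := hAB.surj u
      have h1 : ∀ x : F, ((r s)⁻¹ * σ) (algebraMap F G x) = algebraMap F G x := by
        intro x
        rw [AlgEquiv.mul_apply, ← hres σ u hσ x, hu.2, ← hr, ← AlgEquiv.mul_apply, inv_mul_cancel,
          AlgEquiv.one_apply]
      obtain ⟨β, hβ⟩ := dv_fix h1
      refine ⟨β, Finset.mem_univ _, ?_⟩
      rw [hβ, mul_inv_cancel_left]
      exact smU_inj hAB.ord ((hcl σ).symm.trans hσ)
  obtain ⟨κ, hκ⟩ : ∃ κ : ℂ, κ = 2 * embK (μ : K) * (embK ((η : 𝓞 K) : K))⁻¹ *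
      (embK ((pk : 𝓞 K) : K) - (Ideal.absNorm (Ideal.span {(pk : 𝓞 K)}) : ℂ)) *
        η₀ u0⁻¹ := ⟨_, rfl⟩
  have hvκ : A.valuation κ = 1 := by
    have hη : A.valuation (embK ((η : 𝓞 K) : K)) = 1 := by
      have hi : ∀ x : 𝓞 K, A.valuation (embK (x : K)) ≤ 1 := fun x =>
        S4.val_integral A ((RingOfIntegers.isIntegral_coe x).map (embK.restrictScalars ℤ))
      refine S4.val_eq_one_of_mul A (hi _) (hi ((η⁻¹ : (𝓞 K)ˣ) : 𝓞 K)) ?_
      rw [← emb_mul, Units.mul_inv]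
      have e : ((1 : 𝓞 K) : K) = 1 := rfl
      rw [e, map_one, map_one]
    rw [hκ, map_mul, map_mul, map_mul, map_mul, map_inv₀, h2, hμ, hη, hp, hη0u, inv_one, mul_one,
      mul_one, mul_one, mul_one]
  have hkey2 : ∀ s : Gal(F/K), Om * (η₀ (cl (r s)) * φ (r s (thX F k J))) =
      κ * y (s * res u0) := by
    intro s
    rw [hxs, hy, Finset.mul_sum, Finset.mul_sum]
    refine Fintype.sum_equiv (Equiv.mulRight u0) _ _ fun u => ?_
    show Om * (if res u = s then η₀ u * φ (lamQ (smU J u)) else 0) =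
      κ * (if res (u * u0) = s * res u0 then η₀ (u * u0) * Y (u * u0) 1 else 0)
    by_cases hu : res u = s
    · rw [if_pos hu, if_pos (by rw [map_mul, hu]), hY2]
      have e1 := hkey u
      have e2 : η₀ u = η₀ (u * u0) * η₀ u0⁻¹ := by
        rw [← map_mul, mul_inv_cancel_right]
      have e3 : Om * (η₀ u * φ (lamQ (smU J u))) = η₀ u * (Om * φ (lamQ (smU J u))) := by ring
      rw [e3, e1, e2, hκ]
      ring
    · rw [if_neg hu, if_neg fun h => hu (by
        rw [map_mul] at h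
        exact mul_right_cancel h), mul_zero, mul_zero]
  have e2 : Matrix.det (Matrix.of fun g h : Gal(F/K) => κ * y (g * h * res u0)) =
      Om ^ Fintype.card Gal(F/K) * Matrix.det
      (Matrix.of fun s t : Gal(F/K) => η₀ (cl (r (s * t))) * φ (r (s * t) (thX F k J))) := by
    rw [← Matrix.det_smul]
    refine congrArg Matrix.det ?_
    ext g h
    exact (hkey2 (g * h)).symm
  have e3 := det_shift_val hAB.commF y κ (res u0) A
  rw [e2, hvκ, one_pow, one_mul, hdy, map_mul, ← hdv] at e3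
  have hcard : Fintype.card Gal(F/K) = Module.finrank K F := by
    rw [← Nat.card_eq_fintype_card, IsGalois.card_aut_eq_finrank]
  have hO : A.valuation (Om ^ Module.finrank K F) ≠ 0 :=
    (map_ne_zero _).2 (pow_ne_zero _ Om_ne)
  rw [hcard] at e3
  rw [map_div₀, eq_div_iff hO, mul_comm, e3]

/-- **The determinant is a unit above `ℓ`** if the value of the L-series is. -/
theorem dX_unit (hAB : AB H F G J) (hM : Md μ) (hk : Kap F G k) (hΨ : HF f F Ψ)
    (hμf : μ ∣ f) (hfr : FrK F G k b Ψ)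
    (hb : ∀ v : HeightOneSpectrum (𝓞 K), b ∈ v.asIdeal → μ ∈ v.asIdeal) {ℓ : ℕ} (hℓ : ℓ.Prime)
    (h2 : ℓ ≠ 2) (hμ : (Ideal.absNorm (Ideal.span {μ})).Coprime ℓ) {n : ℕ}
    (hn : (pk : 𝓞 K) = (n : 𝓞 K)) (h1 : μ ∣ pk - 1) (hnℓ : ℓ ∣ n + 1) (hU : UnitT ℓ F Ψ)
    {r : Gal(F/K) → Gal(G/K)}
    (hr : ∀ (s : Gal(F/K)) (x : F), r s (algebraMap F G x) = algebraMap F G (s x))
    (v : HeightOneSpectrum (𝓞 G)) (hv : (ℓ : 𝓞 G) ∈ v.asIdeal) :
    v.valuation G (dX F k r J) = 1 := by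
  have hfl : Fact ℓ.Prime := ⟨hℓ⟩
  obtain ⟨φ⟩ := exists_emb G
  obtain ⟨A, hA, hAv⟩ := exists_place (φ : G →+* ℂ) v hℓ.ne_zero hv
  apply hAv
  obtain ⟨L, hL, hL1, hLA⟩ := hU
  change A.valuation (φ (dX F k r J)) = 1
  have hc2 : (2 : ℕ).Coprime ℓ := (Nat.coprime_primes Nat.prime_two hℓ).2 fun h => h2 h.symm
  have hv2 : A.valuation (2 : ℂ) = 1 := by
    have h3 := hA.nat hc2
    rwa [Nat.cast_ofNat] at h3
  rw [dX_val hAB hM h1 hk hΨ hfr hb φ hL hL1 hr A (val_embK hA hμ) hv2 ?_ fun w hw => ?_, hLA A hA]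
  · rw [hn, absNorm_natK]
    have e : embK (((n : 𝓞 K)) : K) = (n : ℂ) := by
      have e1 : (((n : 𝓞 K)) : K) = (n : K) := map_natCast (algebraMap (𝓞 K) K) n
      rw [e1, map_natCast]
    rw [e]
    have e3 : (n : ℂ) - ((n ^ 2 : ℕ) : ℂ) = ((n * (1 - n) : ℤ) : ℂ) := by
      push_cast
      ring
    rw [e3]
    refine hA.int ?_
    obtain ⟨t, ht⟩ := hnℓ
    have ht' : (n : ℤ) = ℓ * t - 1 := by
      have := congrArg (Nat.cast : ℕ → ℤ) ht
      push_cast at this
      linarith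
    obtain ⟨a, b, hab⟩ : IsCoprime (2 : ℤ) (ℓ : ℤ) := by exact_mod_cast Nat.isCoprime_iff_coprime.2 hc2
    rw [ht']
    refine ⟨-a, b + a * (t * (3 - ℓ * t)), ?_⟩
    linear_combination hab
  · have h3 : Ψ w.asIdeal = 0 := by
      refine hΨ.zero _ fun hc => ?_
      obtain ⟨c, hc'⟩ := hμf
      have h4 : up f F ∈ w.asIdeal := by
        have h5 : up f F = algebraMap (𝓞 K) (𝓞 F) f := rfl
        rw [h5, hc', map_mul]
        exact w.asIdeal.mul_mem_right _ hw
      have h6 : Ideal.span {up f F} ≤ w.asIdeal := (Ideal.span_singleton_le_iff_mem _).2 h4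
      have h7 : w.asIdeal ⊔ Ideal.span {up f F} = ⊤ := Ideal.isCoprime_iff_sup_eq.1 hc
      rw [sup_eq_left.2 h6] at h7
      exact w.isPrime.ne_top h7
    have h4 : pB Ψ w.asIdeal = 0 := by
      rw [pB, pC, h3]
      have e : ((0 : 𝓞 K) : K) = 0 := rfl
      rw [e, map_zero, map_zero]
    rw [h4, zero_mul, sub_zero, map_one]

end

end

end Pool.Agent.Lib.MP_1a91b9_nuY.BE
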