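import Pool.Agent.Lib.MP_1a91b9_nuT.Base
import Pool.Agent.Lib.MP_1a91b9_nuT.DB.Od

/-!
# The decomposition field
-/

set_option autoImplicit false
set_option linter.unusedSectionVars false

namespace Pool.Agent.Lib.MP_1a91b9_nuY.BE

variable [Pool.Agent.Lib.MP_1a91b9_nuT.CD]

open NumberField IsDedekindDomain WeierstrassCurve Pool.Agent.Lib.MP_1a91b9_nuT
open Pool.Agent.Lib.MP_1a91b9_nuT.DB (gpl)

noncomputable section

open MulAction Pointwise in
/-- the decomposition field of a place `v` of `N` over `F` -/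
theorem exists_dec {F N : Type} [Field F] [NumberField F] [Algebra K F] [Field N] [NumberField N]
    [Algebra K N] [Algebra F N] [IsScalarTower K F N] [IsGalois F N]
    (v : HeightOneSpectrum (𝓞 N)) :
    ∃ (Z : Type) (_ : Field Z) (_ : NumberField Z) (_ : Algebra K Z) (_ : Algebra F Z)
      (_ : Algebra Z N) (_ : IsScalarTower K F Z) (_ : IsScalarTower K Z N)
      (_ : IsScalarTower F Z N),
      (∀ x : N, (∀ s : Gal(N/F), gpl s v = v → s x = x) → ∃ z : Z, algebraMap Z N z = x) ∧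
      (∀ (s : Gal(N/F)) (z : Z), gpl s v = v → s (algebraMap Z N z) = algebraMap Z N z) ∧
      (v.under (𝓞 Z)).asIdeal.inertiaDeg (𝓞 F) = 1 := by
  have hst : ∀ s : Gal(N/F), s ∈ stabilizer Gal(N/F) v.asIdeal ↔ gpl s v = v := by
    intro s
    rw [mem_stabilizer_iff]
    constructor
    · intro h
      apply HeightOneSpectrum.ext
      conv_rhs => rw [← h]
      rw [Ideal.pointwise_smul_eq_comap]
      rfl
    · intro h
      conv_rhs => rw [← h]
      rw [Ideal.pointwise_smul_eq_comap]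
      rfl
  let Z : IntermediateField F N :=
    FixedPoints.intermediateField (stabilizer Gal(N/F) v.asIdeal)
  have hZ : ∀ x : N, x ∈ Z ↔ ∀ s : stabilizer Gal(N/F) v.asIdeal, s • x = x := fun x => Iff.rfl
  have i1 : v.asIdeal.IsPrime := v.isPrime
  have i2 : v.asIdeal.IsMaximal := v.isMaximal
  have i3 : (v.under (𝓞 Z)).asIdeal.IsMaximal := (v.under (𝓞 Z)).isMaximal
  have i4 : v.asIdeal.LiesOver (v.under (𝓞 Z)).asIdeal := ⟨rfl⟩
  have i5 : v.asIdeal.LiesOver (v.under (𝓞 F)).asIdeal := ⟨rfl⟩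
  have i6 : (v.under (𝓞 Z)).asIdeal.LiesOver (v.under (𝓞 F)).asIdeal :=
    ⟨(Ideal.under_under (A := 𝓞 F) (B := 𝓞 Z) v.asIdeal).symm⟩
  have i8 : IsScalarTower K Z N := IsScalarTower.of_algebraMap_eq fun x => rfl
  have i7 : IsDecompositionField F N v.asIdeal Z := inferInstance
  have h1 := IsDecompositionField.inertiaDeg_eq (𝓞 F) F N v.asIdeal (p := (v.under (𝓞 F)).asIdeal) Z (𝓞 Z)
    (v.under (𝓞 Z)).asIdeal (v.under (𝓞 F)).ne_bot
  refine ⟨Z, inferInstance, inferInstance, inferInstance, inferInstance, inferInstance,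
    inferInstance, i8, inferInstance, fun x hx => ?_, fun s z hs => ?_, h1⟩
  · refine ⟨⟨x, (hZ x).2 fun s => hx s.1 ((hst s.1).1 s.2)⟩, rfl⟩
  · exact (hZ _).1 z.2 ⟨s, (hst s).2 hs⟩

end

end Pool.Agent.Lib.MP_1a91b9_nuY.BE
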